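import Pool.Agent.Y142.ZI.Stm3
import Pool.Agent.Y142.ZI.So
import Pool.Agent.W417.K3.FftA

/-!
# Project Y142-ZI: tensor invariants of an open subgroup
-/

set_option autoImplicit false

open Matrix Polynomial Filter Topology
open Pool.Agent.Y142.ZO Pool.Agent.Y142.ZI

namespace Pool.Agent.Y155.ZI

open Module Finset Pool.Agent.W417.K3.Fft

section alg

variable {K : Type} [Field K] {r k : ℕ}

/-- the form attached to an involution -/
theorem prod_update {V : Type} (b : V → V → K) (σ : Fin k → Fin k) (hσ : ∀ j, σ (σ j) = j)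
    (hσ' : ∀ j, σ j ≠ j) (m : Fin k → V) (i : Fin k) :
    ∃ (w : V) (C : K) (l : Bool), ∀ x : V,
      ∏ j with j < σ j, b (Function.update m i x j) (Function.update m i x (σ j)) =
        (if l then b x w else b w x) * C := by
  rcases lt_or_gt_of_ne (hσ' i) with h | h
  · -- `σ i < i`
    refine ⟨m (σ i), ∏ j ∈ (univ.filter fun j => j < σ j).erase (σ i), b (m j) (m (σ j)), false, ?_⟩
    intro x
    have hmem : σ i ∈ univ.filter fun j => j < σ j := by simp [hσ i, h]
    rw [← mul_prod_erase _ _ hmem, hσ i, Function.update_self, Function.update_of_ne (hσ' i)]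
    simp only [Bool.false_eq_true, if_false]
    congr 1
    refine prod_congr rfl fun j hj => ?_
    rw [mem_erase, mem_filter] at hj
    have h1 : j ≠ i := by
      rintro rfl
      exact lt_asymm h hj.2.2
    have h2 : σ j ≠ i := by
      intro h'
      apply hj.1
      rw [← h', hσ]
    rw [Function.update_of_ne h1, Function.update_of_ne h2]
  · refine ⟨m (σ i), ∏ j ∈ (univ.filter fun j => j < σ j).erase i, b (m j) (m (σ j)), true, ?_⟩
    intro x
    have hmem : i ∈ univ.filter fun j => j < σ j := by simpa using h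
    rw [← mul_prod_erase _ _ hmem, Function.update_self, Function.update_of_ne (hσ' i)]
    simp only [if_true]
    congr 1
    refine prod_congr rfl fun j hj => ?_
    rw [mem_erase, mem_filter] at hj
    have h2 : σ j ≠ i := by
      intro h'
      have h3 := hσ j
      rw [h'] at h3
      rw [← h3] at hj
      rw [hσ] at hj
      exact lt_asymm h hj.2.2
    rw [Function.update_of_ne hj.1, Function.update_of_ne h2]

/-- the multilinear form of a pairing of the slots -/
def Tσ {V : Type} [AddCommGroup V] [Module K V] (b : V →ₗ[K] V →ₗ[K] K)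
    (σ : Fin k → Fin k) (hσ : ∀ j, σ (σ j) = j)
    (hσ' : ∀ j, σ j ≠ j) : MultilinearMap K (fun _ : Fin k => V) K where
  toFun v := ∏ j with j < σ j, b (v j) (v (σ j))
  map_update_add' := by
    intro inst m i x y
    have hinst : inst = instDecidableEqFin k := Subsingleton.elim _ _
    subst hinst
    obtain ⟨w, C, l, h⟩ := prod_update (fun u v => b u v) σ hσ hσ' m i
    rw [h, h, h]
    cases l <;> simp [add_mul]
  map_update_smul' := by
    intro inst m i c x
    have hinst : inst = instDecidableEqFin k := Subsingleton.elim _ _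
    subst hinst
    obtain ⟨w, C, l, h⟩ := prod_update (fun u v => b u v) σ hσ hσ' m i
    rw [h, h]
    cases l <;> simp [mul_assoc]

theorem Tσ_apply {V : Type} [AddCommGroup V] [Module K V] (b : V →ₗ[K] V →ₗ[K] K)
    (σ : Fin k → Fin k) (hσ : ∀ j, σ (σ j) = j) (hσ' : ∀ j, σ j ≠ j) (v : Fin k → V) :
    Tσ b σ hσ hσ' v = ∏ j with j < σ j, b (v j) (v (σ j)) := rfl

/-- the multilinear form with given coefficients -/
noncomputable def formK (t : (Fin k → Fin r) → K) :
    MultilinearMap K (fun _ : Fin k => (Fin r → K)) K :=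
  ∑ I : Fin k → Fin r, (t I) • (MultilinearMap.mkPiAlgebra K (Fin k) K).compLinearMap
    (fun j => LinearMap.proj (I j))

theorem formK_apply (t : (Fin k → Fin r) → K) (v : Fin k → Fin r → K) :
    formK t v = ∑ I : Fin k → Fin r, (t I) * ∏ j, v j (I j) := by
  simp [formK]

theorem formK_single (t : (Fin k → Fin r) → K) (I : Fin k → Fin r) :
    formK t (fun j => Pi.single (I j) 1) = t I := by
  rw [formK_apply, Finset.sum_eq_single I]
  · simp
  · intro J _ hJ
    obtain ⟨j, hj⟩ := Function.ne_iff.mp hJ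
    rw [Finset.prod_eq_zero (mem_univ j), mul_zero]
    exact Pi.single_eq_of_ne hj 1
  · simp

theorem eq_formK (φ : MultilinearMap K (fun _ : Fin k => (Fin r → K)) K) :
    φ = formK fun I => φ fun j => Pi.single (I j) 1 := by
  refine Basis.ext_multilinear (fun _ => Pi.basisFun K (Fin r)) fun I => ?_
  have h := formK_single (fun I => φ fun j => Pi.single (I j) 1) I
  simp only [Pi.basisFun_apply]
  rw [h]

theorem bil_toBilin (B : Matrix (Fin r) (Fin r) K) (x y : Fin r → K) :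
    Matrix.toBilin' B x y = bil B x y := by
  rw [Matrix.toBilin'_apply', bil]

theorem exists_basis [CharZero K] (B : Matrix (Fin r) (Fin r) K) (hB : Bᵀ = B)
    (hdet : B.det ≠ 0) :
    ∃ q : Basis (Fin r) K (Fin r → K), (∀ i j, i ≠ j → bil B (q i) (q j) = 0) ∧
      ∀ i, bil B (q i) (q i) ≠ 0 := by
  have : Invertible (2 : K) := invertibleOfNonzero two_ne_zero
  have hs : LinearMap.IsSymm (Matrix.toBilin' B) := ⟨fun u v => by
    rw [RingHom.id_apply, bil_toBilin, bil_toBilin]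
    exact bil_symm hB u v⟩
  obtain ⟨q, hq⟩ := LinearMap.BilinForm.exists_orthogonal_basis (B := Matrix.toBilin' B) hs
  have hnd : (Matrix.toBilin' B).SeparatingLeft :=
    (LinearMap.BilinForm.nondegenerate_toBilin'_of_det_ne_zero' B hdet).1
  have hn := hq.not_isOrtho_basis_self_of_separatingLeft hnd
  have hr : finrank K (Fin r → K) = r := Module.finrank_fin_fun K
  refine ⟨q.reindex (finCongr hr), ?_, ?_⟩
  · intro i j hij
    rw [Basis.reindex_apply, Basis.reindex_apply, ← bil_toBilin]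
    exact LinearMap.isOrthoᵢ_def.mp hq _ _ fun h => hij ((finCongr hr).symm.injective h)
  · intro i
    rw [Basis.reindex_apply, ← bil_toBilin]
    exact hn _

/-- the first fundamental theorem, from the invariance under the skew maps `wedge B u v` -/
theorem fft [CharZero K] (hk : k < r) (B : Matrix (Fin r) (Fin r) K) (hB : Bᵀ = B)
    (hdet : B.det ≠ 0) (φ : MultilinearMap K (fun _ : Fin k => (Fin r → K)) K)
    (hφ : ∀ (a b : Fin r → K) (v : Fin k → Fin r → K),
      ∑ j, φ (Function.update v j (wedge B a b *ᵥ v j)) = 0) :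
    (fun v => φ v) ∈ Submodule.span K {f : (Fin k → Fin r → K) → K |
      ∃ π : Equiv.Perm (Fin k), (∀ j, π (π j) = j) ∧ (∀ j, π j ≠ j) ∧
        ∀ v, f v = ∏ j with j < π j, (v j ⬝ᵥ B *ᵥ v (π j))} := by
  obtain ⟨q, hq1, hq2⟩ := exists_basis B hB hdet
  -- the matrix of the form in the basis
  obtain ⟨d, hd, hD⟩ : ∃ d : Fin r → K, (∀ a, d a ≠ 0) ∧
      ∀ a b, bil B (q a) (q b) = DD d a b := by
    refine ⟨fun a => bil B (q a) (q a), hq2, fun a b => ?_⟩
    rw [DD]
    split_ifs with h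
    · rw [h]
    · exact hq1 a b h
  have hrel : ∀ (u v : Fin r → K) (m : Fin k → Fin r → K),
      ∑ j, bil B u (m j) * φ (Function.update m j v) =
        ∑ j, bil B v (m j) * φ (Function.update m j u) := by
    intro u v m
    have h := hφ u v m
    have h1 : ∀ j, φ (Function.update m j (wedge B u v *ᵥ m j)) =
        bil B u (m j) * φ (Function.update m j v) - bil B v (m j) * φ (Function.update m j u) := by
      intro j
      rw [wedge_mulVec, MultilinearMap.map_update_sub, MultilinearMap.map_update_smul,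
        MultilinearMap.map_update_smul, smul_eq_mul, smul_eq_mul]
    rw [Finset.sum_congr rfl fun j _ => h1 j, Finset.sum_sub_distrib] at h
    exact sub_eq_zero.1 h
  have hkey := key (k := k) d hd univ (by simpa using hk)
    (fun J => φ (fun j => q (J j)))
    (fun J J' h => by
      have : J = J' := funext fun j => h j (mem_univ _)
      rw [this]) (by
      intro a b hab J
      have h := hrel (q a) (q b) (fun j => q (J j))
      have h2 : ∀ (j : Fin k) (x : Fin r), Function.update (fun j => q (J j)) j (q x) =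
          fun i => q (Function.update J j x i) := by
        intro j x
        exact (Function.comp_update q J j x).symm
      simp only [h2, hD, DD] at h
      rw [sum_filter, sum_filter]
      refine Eq.trans ?_ (h.trans ?_)
      · refine sum_congr rfl fun j _ => ?_
        by_cases hj : J j = a
        · rw [if_pos hj, if_pos hj.symm]
        · rw [if_neg hj, if_neg (Ne.symm hj), zero_mul]
      · refine sum_congr rfl fun j _ => ?_
        by_cases hj : J j = b
        · rw [if_pos hj, if_pos hj.symm]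
        · rw [if_neg hj, if_neg (Ne.symm hj), zero_mul])
  -- evaluation on the basis
  let evq : MultilinearMap K (fun _ : Fin k => (Fin r → K)) K →ₗ[K] ((Fin k → Fin r) → K) :=
    { toFun := fun T J => T (fun j => q (J j))
      map_add' := fun _ _ => rfl
      map_smul' := fun _ _ => rfl }
  have hinj : Function.Injective evq := by
    intro T T' h
    exact Basis.ext_multilinear (fun _ => q) fun J => congrFun h J
  let eve : MultilinearMap K (fun _ : Fin k => (Fin r → K)) K →ₗ[K] ((Fin k → Fin r → K) → K) :=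
    { toFun := fun T v => T v
      map_add' := fun _ _ => rfl
      map_smul' := fun _ _ => rfl }
  let GG : Set (MultilinearMap K (fun _ : Fin k => (Fin r → K)) K) :=
    {T | ∃ (σ : Fin k → Fin k) (h1 : ∀ j, σ (σ j) = j) (h2 : ∀ j, σ j ≠ j),
      T = Tσ (Matrix.toBilin' B) σ h1 h2}
  have h1 : evq φ ∈ (Submodule.span K GG).map evq := by
    rw [Submodule.map_span]
    refine Submodule.span_mono ?_ hkey
    rintro s ⟨σ, hσ1, hσ2, -, hσ4⟩
    refine ⟨Tσ (Matrix.toBilin' B) σ hσ1 (fun j => hσ2 j (mem_univ _)), ⟨σ, hσ1, _, rfl⟩, ?_⟩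
    funext I
    rw [hσ4 I]
    refine (Tσ_apply (Matrix.toBilin' B) σ hσ1 (fun j => hσ2 j (mem_univ _)) _).trans ?_
    refine prod_congr rfl fun j _ => ?_
    rw [bil_toBilin]
    exact hD _ _
  obtain ⟨T, hT, hT'⟩ := h1
  have h2 : φ ∈ Submodule.span K GG := by
    rw [← hinj hT']
    exact hT
  have h3 : eve φ ∈ (Submodule.span K GG).map eve := Submodule.mem_map_of_mem h2
  rw [Submodule.map_span] at h3
  refine Submodule.span_mono ?_ h3
  rintro _ ⟨_, ⟨σ, hσ1, hσ2, rfl⟩, rfl⟩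
  refine ⟨Function.Involutive.toPerm σ hσ1, hσ1, hσ2, fun v => ?_⟩
  refine (Tσ_apply (Matrix.toBilin' B) σ hσ1 hσ2 _).trans ?_
  refine prod_congr rfl fun j _ => ?_
  exact bil_toBilin B _ _

end alg

section tan

variable {ℓ : ℕ} [Fact ℓ.Prime] {N : ℕ} {G : Type} [Group G]

theorem cont_form {k : ℕ} (φ : MultilinearMap ℚ_[ℓ] (fun _ : Fin k => Fin N → ℚ_[ℓ]) ℚ_[ℓ]) :
    Continuous φ := by
  have h : (φ : (Fin k → Fin N → ℚ_[ℓ]) → ℚ_[ℓ]) =
      fun v => ∑ I : Fin k → Fin N, (φ fun j => Pi.single (I j) 1) * ∏ j, v j (I j) := by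
    funext v
    conv_lhs => rw [eq_formK φ]
    exact formK_apply _ v
  rw [h]
  refine continuous_finsetSum _ fun I _ => continuous_const.mul ?_
  exact continuous_finsetProd _ fun j _ => (continuous_apply (I j)).comp (continuous_apply j)

/-- powers of elements near the identity -/
theorem tan_pow {ρ : G →* Matrix (Fin N) (Fin N) ℚ_[ℓ]} {Y : Matrix (Fin N) (Fin N) ℚ_[ℓ]}
    {σ : ℕ → G}
    (h : Tendsto (fun n : ℕ => ((ℓ : ℚ_[ℓ]) ^ n)⁻¹ • (ρ (σ n) - 1)) atTop (𝓝 Y)) (e : ℕ) :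
    Tendsto (fun n : ℕ => ((ℓ : ℚ_[ℓ]) ^ n)⁻¹ • (ρ (σ n ^ e) - 1)) atTop (𝓝 ((e : ℚ_[ℓ]) • Y)) ∧
    Tendsto (fun n : ℕ => ρ (σ n ^ e) - 1) atTop (𝓝 0) := by
  have hℓ0 : (ℓ : ℚ_[ℓ]) ≠ 0 := by
    exact_mod_cast (Fact.out : ℓ.Prime).ne_zero
  have hpow : Tendsto (fun n : ℕ => (ℓ : ℚ_[ℓ]) ^ n) atTop (𝓝 0) := by
    refine tendsto_pow_atTop_nhds_zero_of_norm_lt_one ?_
    exact Padic.norm_p_lt_one
  have hone : Tendsto (fun n : ℕ => ρ (σ n)) atTop (𝓝 1) := by
    have h1 := hpow.smul h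
    rw [zero_smul] at h1
    have h2 := h1.add_const (1 : Matrix (Fin N) (Fin N) ℚ_[ℓ])
    rw [zero_add] at h2
    refine h2.congr fun n => ?_
    rw [smul_smul, mul_inv_cancel₀ (pow_ne_zero n hℓ0), one_smul, sub_add_cancel]
  have hsum : Tendsto (fun n : ℕ => ∑ i ∈ range e, ρ (σ n) ^ i) atTop
      (𝓝 (∑ _i ∈ range e, (1 : Matrix (Fin N) (Fin N) ℚ_[ℓ]))) := by
    refine tendsto_finsetSum _ fun i _ => ?_
    have := hone.pow i
    rwa [one_pow] at this
  have h3 : Tendsto (fun n : ℕ => ((ℓ : ℚ_[ℓ]) ^ n)⁻¹ • (ρ (σ n ^ e) - 1)) atTop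
      (𝓝 ((e : ℚ_[ℓ]) • Y)) := by
    have h4 := h.mul hsum
    have h5 : Y * ∑ _i ∈ range e, (1 : Matrix (Fin N) (Fin N) ℚ_[ℓ]) = (e : ℚ_[ℓ]) • Y := by
      rw [Finset.sum_const, card_range, mul_smul_comm, mul_one, Nat.cast_smul_eq_nsmul]
    rw [h5] at h4
    refine h4.congr fun n => ?_
    rw [smul_mul_assoc, mul_geom_sum, map_pow]
  refine ⟨h3, ?_⟩
  have h1 := hpow.smul h3
  rw [zero_smul] at h1
  refine h1.congr fun n => ?_
  rw [smul_smul, mul_inv_cancel₀ (pow_ne_zero n hℓ0), one_smul]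

/-- invariance under the tangent vectors -/
theorem inv_tan [TopologicalSpace G] [IsTopologicalGroup G] [CompactSpace G]
    {ρ : G →* Matrix (Fin N) (Fin N) ℚ_[ℓ]} {Y : Matrix (Fin N) (Fin N) ℚ_[ℓ]}
    (hY : IsTangent ℓ ρ Y) {k : ℕ}
    (φ : MultilinearMap ℚ_[ℓ] (fun _ : Fin k => Fin N → ℚ_[ℓ]) ℚ_[ℓ]) (U : Subgroup G)
    (hU : IsOpen (U : Set G)) (hφ : ∀ σ ∈ U, ∀ v, φ (fun j => ρ σ *ᵥ v j) = φ v)
    (v : Fin k → Fin N → ℚ_[ℓ]) : ∑ j, φ (Function.update v j (Y *ᵥ v j)) = 0 := by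
  obtain ⟨σ, hσ⟩ := hY
  have hfin : Finite (G ⧸ U) := Subgroup.quotient_finite_of_isOpen U hU
  have hidx : U.index ≠ 0 := Subgroup.index_ne_zero_of_finite
  obtain ⟨e, he0, he⟩ : ∃ e : ℕ, e ≠ 0 ∧ ∀ g : G, g ^ e ∈ U :=
    ⟨U.index.factorial, Nat.factorial_ne_zero _, fun g =>
      U.pow_mem_of_index_ne_zero_of_dvd hidx g fun m h1 h2 => Nat.dvd_factorial h1 h2⟩
  obtain ⟨k1, k2⟩ := tan_pow hσ e
  let Φ : ContinuousMultilinearMap ℚ_[ℓ] (fun _ : Fin k => Fin N → ℚ_[ℓ]) ℚ_[ℓ] :=
    ⟨φ, cont_form φ⟩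
  have hd : HasFDerivWithinAt Φ (Φ.linearDeriv v) Set.univ v := (Φ.hasFDerivAt v).hasFDerivWithinAt
  have hmv : ∀ w : Fin N → ℚ_[ℓ],
      Continuous fun A : Matrix (Fin N) (Fin N) ℚ_[ℓ] => A *ᵥ w := fun w =>
    Continuous.matrix_mulVec continuous_id continuous_const
  have hl := hd.lim (l := atTop) (c := fun n : ℕ => ((ℓ : ℚ_[ℓ]) ^ n)⁻¹)
    (d := fun n j => (ρ (σ n ^ e) - 1) *ᵥ v j) (v := fun j => ((e : ℚ_[ℓ]) • Y) *ᵥ v j)
    (by
      rw [tendsto_pi_nhds]
      intro j
      have := ((hmv (v j)).tendsto 0).comp k2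
      rwa [zero_mulVec] at this)
    (Eventually.of_forall fun _ => Set.mem_univ _)
    (by
      rw [tendsto_pi_nhds]
      intro j
      have := ((hmv (v j)).tendsto _).comp k1
      refine this.congr fun n => ?_
      show (((ℓ : ℚ_[ℓ]) ^ n)⁻¹ • (ρ (σ n ^ e) - 1)) *ᵥ v j = ((ℓ : ℚ_[ℓ]) ^ n)⁻¹ • _
      rw [smul_mulVec])
  have hz : (fun n : ℕ => ((ℓ : ℚ_[ℓ]) ^ n)⁻¹ •
      (Φ (v + fun j => (ρ (σ n ^ e) - 1) *ᵥ v j) - Φ v)) = fun _ => 0 := by
    funext n
    have h1 : (v + fun j => (ρ (σ n ^ e) - 1) *ᵥ v j) = fun j => ρ (σ n ^ e) *ᵥ v j := by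
      funext j
      rw [Pi.add_apply, sub_mulVec, one_mulVec]
      abel
    have h2 : Φ (fun j => ρ (σ n ^ e) *ᵥ v j) = Φ v := hφ _ (he (σ n)) v
    rw [h1, h2, sub_self, smul_zero]
  rw [hz] at hl
  have h0 := tendsto_nhds_unique hl tendsto_const_nhds
  rw [ContinuousMultilinearMap.linearDeriv_apply] at h0
  have h1 : ∑ j, φ (Function.update v j (((e : ℚ_[ℓ]) • Y) *ᵥ v j)) =
      (e : ℚ_[ℓ]) * ∑ j, φ (Function.update v j (Y *ᵥ v j)) := by
    rw [Finset.mul_sum]
    refine Finset.sum_congr rfl fun j _ => ?_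
    rw [smul_mulVec, MultilinearMap.map_update_smul, smul_eq_mul]
  have h2 : (e : ℚ_[ℓ]) * ∑ j, φ (Function.update v j (Y *ᵥ v j)) = 0 := by
    rw [← h1]
    exact h0
  exact (mul_eq_zero.1 h2).resolve_left (by exact_mod_cast he0)

end tan

theorem t : S_TENS := by
  intro ℓ _ N G _ _ _ _ ρ hρ B hB hdet hfull k φ U hk hU hφ
  refine fft hk B hB hdet φ fun a b v => ?_
  exact inv_tan (hfull _ (skew_wedge hB a b)) φ U hU hφ v

end Pool.Agent.Y155.ZI
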